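import Pool.Agent.H625R2.BallFin
import Pool.Agent.H612.PatOf

/-!
# Recognition of ball graphs in `ℝ^d` is `∃ℝ`-complete for every fixed `d ≥ 3`

The hardness proof goes through straight-line programs with increasing values (Shor's normal
form), constructible patterns of points and lines, strict sign matrices (every element of a
pattern is replaced by four perturbed copies), a lifting of sign matrices to higher dimension, and
finally a graph of balls: points are small balls, a hyperplane is a pair of nested balls on each
side, and one further ball confines all hyperplanes to a linear space of the right dimension
(Lorentz model of the space of balls).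
-/

namespace Pool.Agent.Results.MP_065e13_lc.BallGraphComplete

open Pool.Agent.NPC Pool.Agent.NPC.ER Pool.Agent.NPC.ER.Pat

theorem isPatOf : IsPatOf Sgn.patOf where
  poly := Sgn.poly_patOf Poly.id
  wf := Sgn.patOf_wf
  sound := fun _ h => Sgn.patOf_sound h
  complete := fun _ h => Sgn.patOf_complete h

/-- For every fixed `d ≥ 3` the decision problem `BALL_d` is `∃ℝ`-complete under polynomial-time
many-one reductions. -/
theorem result : ∀ d : ℕ, 3 ≤ d → ERComplete (BALL d) :=
  fun _ hd => ball_complete_of isPatOf (by omega)

end Pool.Agent.Results.MP_065e13_lc.BallGraphComplete
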